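import Pool.Agent.Run7.h630.QF.Iface
import Pool.Agent.Run7.h630.MQ.Nrm

/-!
# R11: the fields on the torus
-/

set_option linter.unusedSectionVars false
set_option linter.unusedVariables false
set_option linter.style.haveILetI false

open MeasureTheory Matrix Filter Topology
open scoped ComplexConjugate
open Run7.h4.YM Run7.h630.WL Run7.h630.MQ Run7.h630.QC Run7.h630.ML Run7.h630.QF

namespace Pool.Agent.Run7.h897.QF

noncomputable section

variable {N n L l : ℕ}

/-- the projection to the torus -/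
def pj (n L : ℕ) {l : ℕ} (X : SiteZ l) : Site n L l :=
  ((X.1 : ZMod n), (X.2.1 : ZMod L), X.2.2)

lemma per_pj (U : Link n L l → SU N) (i : Fin 4) (X : SiteZ l) : per U (i, X) = U (i, pj n L X) :=
  rfl

lemma pj_add (X Y : SiteZ l) : pj n L (X + Y) = pj n L X + pj n L Y := by
  unfold pj
  simp only [Prod.fst_add, Prod.snd_add, Int.cast_add]
  rfl

lemma pj_dir (i : Fin 4) : pj n L (dirZ i : SiteZ l) = dir i := by
  unfold pj dirZ dir
  fin_cases i <;> simp

lemma pj_smul (t : ℕ) (i : Fin 4) : pj n L (t • dirZ i : SiteZ l) = t • dir i := by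
  induction t with
  | zero =>
    unfold pj
    simp
  | succ t ih => rw [succ_nsmul, pj_add, ih, pj_dir, succ_nsmul]

lemma side_per (U : Link n L l → SU N) (i : Fin 4) (X : SiteZ l) (m : ℕ) :
    side (per U) i X m = ((List.range m).map fun t : ℕ => U (i, pj n L X + t • dir i)).prod := by
  unfold side
  congr 1
  refine List.map_congr_left fun t _ => ?_
  rw [per_pj, pj_add, pj_smul]

lemma dress_per (U : Link n L l → SU N) (c : Fin N × Fin N) (X : SiteZ l) :
    dress (per U) c X = Dr c U (pj n L X) := by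
  unfold dress Dr
  rw [side_per, side_per]
  rfl

lemma plaqZ_per (U : Link n L l → SU N) (X : SiteZ l) (a b : Fin 4) :
    plaqZ (per U) X a b = plaq U (pj n L X) a b := by
  unfold plaqZ plaq
  simp only [per_pj, pj_add, pj_dir]

lemma curv_per [NeZero N] (k : ℕ) (U : Link n L l → SU N) (X : SiteZ l) {a b : Fin 4} (hab : a < b)
    {q : ZMod n × ZMod L → ZMod N} (hq : q ((X.1 : ZMod n), (X.2.1 : ZMod L)) = 0) :
    curvZ k (per U) X a b = Fc k q U (pj n L X) a b := by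
  unfold curvZ Fc zz z0
  rw [plaqZ_per, if_pos hab]
  congr 2
  have h1 : q ((pj n L X).1, (pj n L X).2.1) = 0 := hq
  rw [h1, ZMod.val_zero, pow_zero]
  by_cases h01 : a = 0 ∧ b = 1
  · rw [if_pos h01, if_neg]
    rintro ⟨h, -⟩
    rw [h01.1] at h
    exact absurd h (by decide)
  · rw [if_neg h01]
    rfl

/-- the support in the box -/
lemma supp_box {F : E2 → ℂ} {R l : ℕ} [NeZero l] (hR : ∀ x, F x ≠ 0 → ‖x‖ * l ≤ R)
    (x : ℤ × ℤ) (hx : x ∉ bx R) : F (point l x) = 0 := by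
  by_contra h
  have h1 := hR _ h
  have hl0 : (0 : ℝ) < l := by exact_mod_cast NeZero.pos l
  have hc : ∀ i : Fin 2, |(point l x) i| * l ≤ R := fun i =>
    (mul_le_mul_of_nonneg_right ((Real.norm_eq_abs _).symm.le.trans (PiLp.norm_apply_le _ i))
      hl0.le).trans h1
  have h2 := hc 0
  have h3 := hc 1
  have e0 : (point l x) 0 = (x.1 : ℝ) / l := by simp [point]
  have e1 : (point l x) 1 = (x.2 : ℝ) / l := by simp [point]
  rw [e0, abs_div, abs_of_pos hl0, div_mul_cancel₀ _ hl0.ne'] at h2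
  rw [e1, abs_div, abs_of_pos hl0, div_mul_cancel₀ _ hl0.ne'] at h3
  apply hx
  simp only [bx, Finset.mem_product, Finset.mem_Icc, ← abs_le]
  constructor
  · have : ((|x.1| : ℤ) : ℝ) ≤ ((R : ℤ) : ℝ) := by push_cast; exact h2
    exact_mod_cast this
  · have : ((|x.2| : ℤ) : ℝ) ≤ ((R : ℤ) : ℝ) := by push_cast; exact h3
    exact_mod_cast this

/-- one mode -/
lemma one_mode [NeZero N] [NeZero n] [NeZero l] {k R : ℕ} (hR : 2 * R + 4 ≤ n) (ι : Ix N)
    {F : Fin 4 → Fin 4 → E2 → ℂ} (hF : ∀ a b x, F a b x ≠ 0 → ‖x‖ * l ≤ R)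
    {q : ZMod n × ZMod n → ZMod N} (hq : Wn n n N R q) (β : ℝ) (U : Link n n l → SU N) :
    (strength k β (per U) ι F).re = Real.sqrt β * ∑ x : Site n n l, ∑ i : Fin 4,
      ∑ j ∈ Finset.Ioi i, ((((Real.sqrt N * l ^ 2)⁻¹ : ℝ) : ℂ) * rs l n (F i j) (x.1, x.2.1) *
        wave N k l ι x.2.2 * ph2 k q ι.1 U i j x).re := by
  obtain ⟨T, hT⟩ : ∃ T : ℤ × ℤ → ZMod n × ZMod n → ℂ, T = fun x u => ∑ y : ZMod l × ZMod l,
    ∑ a : Fin 4, ∑ b ∈ Finset.Ioi a, F a b (point l x) * wave N k l ι y *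
      ph2 k q ι.1 U a b (u.1, u.2, y) := ⟨_, rfl⟩
  have hT0 : ∀ x, x ∉ bx R → ∀ u, T x u = 0 := by
    intro x hx u
    rw [hT]
    refine Finset.sum_eq_zero fun y _ => Finset.sum_eq_zero fun a _ =>
      Finset.sum_eq_zero fun b _ => ?_
    rw [supp_box (hF a b) x hx, zero_mul, zero_mul]
  have hst := sum_torus (e := n) (R := R) (by omega) T hT0
  have h1 : ∑' x : ℤ × ℤ, ∑ y : ZMod l × ZMod l, ∑ a : Fin 4, ∑ b ∈ Finset.Ioi a,
      F a b (point l x) * wave N k l ι y * trace ((dress (per U) ι.1 (x.1, x.2, y)).1 *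
        curvZ k (per U) (x.1, x.2, y) a b) =
      ∑ u : ZMod n × ZMod n, T (u.1.valMinAbs, u.2.valMinAbs) u := by
    rw [hst, tsum_eq_sum (s := bx R)]
    · refine Finset.sum_congr rfl fun x hx => ?_
      simp only [bx, Finset.mem_product, Finset.mem_Icc, ← abs_le] at hx
      rw [hT]
      refine Finset.sum_congr rfl fun y _ => Finset.sum_congr rfl fun a _ =>
        Finset.sum_congr rfl fun b hb => ?_
      rw [dress_per, curv_per k U _ (Finset.mem_Ioi.1 hb) (q := q) (hq x hx.1 hx.2)]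
      rfl
    · intro x hx
      refine Finset.sum_eq_zero fun y _ => Finset.sum_eq_zero fun a _ =>
        Finset.sum_eq_zero fun b _ => ?_
      rw [supp_box (hF a b) x hx, zero_mul, zero_mul]
  unfold strength
  rw [h1, Complex.re_ofReal_mul, Complex.re_sum, div_eq_mul_inv, mul_assoc]
  congr 1
  have h2 : ∀ f : Site n n l → ℝ, ∑ x : Site n n l, f x =
      ∑ u : ZMod n × ZMod n, ∑ y : ZMod l × ZMod l, f (u.1, u.2, y) := by
    intro f
    rw [Fintype.sum_prod_type, Fintype.sum_prod_type]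
    refine Finset.sum_congr rfl fun a _ => ?_
    rw [Fintype.sum_prod_type]
  rw [h2, Finset.mul_sum]
  refine Finset.sum_congr rfl fun u _ => ?_
  rw [hT]
  beta_reduce
  rw [Complex.re_sum, Finset.mul_sum]
  refine Finset.sum_congr rfl fun y _ => ?_
  rw [Complex.re_sum, Finset.mul_sum]
  refine Finset.sum_congr rfl fun a _ => ?_
  rw [Complex.re_sum, Finset.mul_sum]
  refine Finset.sum_congr rfl fun b _ => ?_
  rw [mul_assoc (((Real.sqrt N * l ^ 2)⁻¹ : ℝ) : ℂ), mul_assoc (((Real.sqrt N * l ^ 2)⁻¹ : ℝ) : ℂ),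
    Complex.re_ofReal_mul]
  rfl

/-- **R11** -/
theorem t_R11 : S_R11 := by
  intro N n l k _ _ _ R hR J hJ F hF q hq β U
  have h1 : ∑ j ∈ J, (strength k β (per U) j (F j)).re = ∑ j ∈ J, Real.sqrt β *
      ∑ x : Site n n l, ∑ a : Fin 4, ∑ b ∈ Finset.Ioi a,
        ((((Real.sqrt N * l ^ 2)⁻¹ : ℝ) : ℂ) * rs l n (F j a b) (x.1, x.2.1) *
          wave N k l j x.2.2 * ph2 k q j.1 U a b x).re :=
    Finset.sum_congr rfl fun j hj => one_mode hR j (hF j hj) hq β U
  rw [h1, ← Finset.mul_sum]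
  congr 1
  unfold Ph Run7.h630.QF.md
  obtain ⟨G, hG⟩ : ∃ G : Ix N → Site n n l → Fin 4 → Fin 4 → ℂ, G = fun j x a b =>
    (((Real.sqrt N * l ^ 2)⁻¹ : ℝ) : ℂ) * rs l n (F j a b) (x.1, x.2.1) *
          wave N k l j x.2.2 := ⟨_, rfl⟩
  have h2 : ∀ j ∈ J, j.1 ∈ Cz N := fun j hj => by
    unfold Cz
    rw [Finset.mem_erase]
    exact ⟨hJ j hj, Finset.mem_univ _⟩
  rw [← Finset.sum_fiberwise_of_maps_to h2]
  refine Finset.sum_congr rfl fun α _ => ?_
  rw [Finset.sum_comm]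
  refine Finset.sum_congr rfl fun x _ => ?_
  rw [Finset.sum_comm]
  refine Finset.sum_congr rfl fun a _ => ?_
  rw [Finset.sum_comm]
  refine Finset.sum_congr rfl fun b _ => ?_
  rw [Finset.sum_mul, Complex.re_sum]
  refine Finset.sum_congr rfl fun j hj => ?_
  rw [(Finset.mem_filter.1 hj).2]

end

end Pool.Agent.Run7.h897.QF
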